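import Pool.Agent.J6H72.PG.Ker

/-!
Complete rewriting systems for the graph incidence groups of all planar graphs.
-/

set_option autoImplicit false

namespace Pool.Agent.J6H72.PG

open Pool.Agent.Helper2GI Pool.Agent.Helper2GI.RA Pool.Agent.Helper2CR

variable {c : Code} {σ : Equiv.Perm (Dart c)} {cl : ℕ → ℕ}

/-- graphs without edges -/
theorem crs_empty (h : IsEmpty (Edge c)) :
    HasCRS (Gam c) ∧ HasCRS (Gam c ⧸ Subgroup.normalClosure {J c}) := by
  have hall : ∀ g : Gam c, g = 1 ∨ g = J c := by
    intro g
    obtain ⟨k, w, rfl⟩ := word_form g
    cases w with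
    | nil =>
      rw [List.map_nil, vG_nil, mul_one]
      exact JJp k
    | cons i w => exact (h.false i).elim
  constructor
  · apply good_crs
    have h4 := good_cyclic (good_bot (G := Gam c)) (J c) (fun k hk => by
      rw [Subgroup.mem_bot] at hk ⊢
      rw [hk, mul_one, mul_inv_cancel]) (fun k hk => by
      rw [Subgroup.mem_bot] at hk ⊢
      rw [hk, mul_one, inv_mul_cancel])
    have h5 : (⊥ : Subgroup (Gam c)) ⊔ Subgroup.zpowers (J c) = ⊤ := by
      rw [eq_top_iff]
      intro g _
      refine (le_sup_right : Subgroup.zpowers (J c) ≤ _) ?_
      rcases hall g with h6 | h6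
      · rw [h6]
        exact Subgroup.one_mem _
      · rw [h6]
        exact Subgroup.mem_zpowers _
    rwa [h5] at h4
  · apply good_crs
    have h5 : (⊤ : Subgroup (Gam c ⧸ Subgroup.normalClosure {J c})) = ⊥ := by
      rw [eq_bot_iff]
      intro g _
      obtain ⟨g, rfl⟩ := QuotientGroup.mk_surjective g
      rw [Subgroup.mem_bot]
      rcases hall g with h6 | h6
      · rw [h6]
        rfl
      · rw [h6]
        exact (QuotientGroup.eq_one_iff _).2 (Subgroup.subset_normalClosure rfl)
    rw [h5]
    exact good_bot

theorem all_planar (hV : Valid c) (h : Planar c) :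
    HasCRS (Gam c) ∧ HasCRS (Gam c ⧸ Subgroup.normalClosure {J c}) := by
  obtain ⟨σ, hσ, cl, hM⟩ := h
  rcases isEmpty_or_nonempty (Edge c) with he | ⟨⟨i₀⟩⟩
  · exact crs_empty he
  obtain ⟨ψ, h1, h2⟩ := exists_psiM hV hσ hM ((i₀, false) : Dart c)
  have hrange := psi_rangeM hV hσ hM _ h1 h2
  have hgood := good_even' (RM σ cl ((i₀, false) : Dart c))
  constructor
  · apply good_crs
    by_cases hJ : J c = 1
    · refine good_of_hom ψ ?_ ?_
      · intro g _ hg
        rcases psi_kerM hV hσ hM _ h1 h2 hg with h3 | h3
        · exact h3
        · rw [h3, hJ]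
      · rw [← MonoidHom.range_eq_map, hrange]
        exact hgood
    · -- the total colour of every component is even
      have hev : ∀ v < c.1, tot c cl (cl v) = 0 := by
        intro v hv
        by_contra h3
        have h4 : tot c cl (cl v) = 1 := by
          rcases zmod2_cases (tot c cl (cl v)) with h5 | h5
          · exact absurd h5 h3
          · exact h5
        have h5 := D_val (odd_D hV hσ hM hv h4)
        rw [List.map_nil, vG_nil, mul_one] at h5
        have e : (1 : ZMod 2).val = 1 := rfl
        rw [e, pow_one] at h5
        exact hJ h5.symm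
      obtain ⟨Y, sn, hY⟩ := exists_potsS hV hσ hM hev
      obtain ⟨χ, hχ1, hχ2⟩ := exists_hom (c := c) (M := Multiplicative (ZMod 2))
        (Multiplicative.ofAdd 1)
        (fun i => Multiplicative.ofAdd (sn (cl (tl ((i, false) : Dart c))) i)) rfl
        (fun i => by rw [← ofAdd_add, tw]; rfl) (fun i => mul_comm _ _)
        (fun v i k _ _ => mul_comm _ _) (by
          intro v hv
          have h3 := hY.sum v hv
          have h4 : ∀ l : List (Edge c), (l.map (fun i => Multiplicative.ofAdd (sn (cl v) i))).prod =
              Multiplicative.ofAdd (l.map (sn (cl v))).sum := by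
            intro l
            induction l with
            | nil => rfl
            | cons i l ih => rw [List.map_cons, List.prod_cons, ih, List.map_cons, List.sum_cons,
                ofAdd_add]
          have h5 : (star c v).map
              (fun i => Multiplicative.ofAdd (sn (cl (tl ((i, false) : Dart c))) i)) =
              (star c v).map (fun i => Multiplicative.ofAdd (sn (cl v) i)) := by
            apply List.map_congr_left
            intro i hi
            have h6 : cl (tl ((i, false) : Dart c)) = cl v :=
              hM.comp _ _ i (inc_tl ((i, false) : Dart c)) (mem_star.1 hi)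
            rw [h6]
          rw [h5, h4, h3, ← ofAdd_nsmul, nsmul_one])
      have hJχ : χ (J c) ≠ 1 := by
        rw [hχ1]
        exact fun h => absurd h (by decide)
      have hK : Good χ.ker := by
        refine good_of_hom ψ ?_ ?_
        · intro g hg hg1
          rcases psi_kerM hV hσ hM _ h1 h2 hg1 with h3 | h3
          · exact h3
          · exfalso
            rw [h3] at hg
            exact hJχ hg
        · have h3 : χ.ker.map ψ = ψ.range := by
            apply le_antisymm
            · rintro _ ⟨g, _, rfl⟩
              exact ⟨g, rfl⟩
            · rintro _ ⟨g, rfl⟩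
              by_cases hg : χ g = 1
              · exact ⟨g, hg, rfl⟩
              · refine ⟨g * J c, ?_, by rw [map_mul, h1, mul_one]⟩
                show χ (g * J c) = 1
                rw [map_mul, hχ1]
                rcases zmod2_cases (Multiplicative.toAdd (χ g)) with h4 | h4
                · exact absurd h4 hg
                · have h5 : χ g = Multiplicative.ofAdd 1 := h4
                  rw [h5, ← ofAdd_add, tw]
                  rfl
          rw [h3, hrange]
          exact hgood
      have hcent : ∀ k ∈ χ.ker, J c * k * (J c)⁻¹ ∈ χ.ker := by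
        intro k hk
        rw [← J_central, mul_inv_cancel_right]
        exact hk
      have hcent' : ∀ k ∈ χ.ker, (J c)⁻¹ * k * J c ∈ χ.ker := by
        intro k hk
        rw [mul_assoc, J_central, inv_mul_cancel_left]
        exact hk
      have h4 := good_cyclic hK (J c) hcent hcent'
      have h5 : χ.ker ⊔ Subgroup.zpowers (J c) = ⊤ := by
        rw [eq_top_iff]
        intro g _
        by_cases hg : χ g = 1
        · exact (le_sup_left : χ.ker ≤ _) hg
        · have h6 : g * J c ∈ χ.ker := by
            show χ (g * J c) = 1
            rw [map_mul, hχ1]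
            rcases zmod2_cases (Multiplicative.toAdd (χ g)) with h4 | h4
            · exact absurd h4 hg
            · have h5 : χ g = Multiplicative.ofAdd 1 := h4
              rw [h5, ← ofAdd_add, tw]
              rfl
          have h7 : g = (g * J c) * (J c)⁻¹ := by rw [mul_inv_cancel_right]
          rw [h7]
          exact Subgroup.mul_mem _ ((le_sup_left : χ.ker ≤ _) h6)
            (Subgroup.inv_mem _ ((le_sup_right : Subgroup.zpowers (J c) ≤ _)
              (Subgroup.mem_zpowers _)))
      rwa [h5] at h4
  · apply good_crs
    have hN : Subgroup.normalClosure {J c} ≤ ψ.ker := by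
      apply Subgroup.normalClosure_le_normal
      rintro g rfl
      exact h1
    refine good_of_hom (QuotientGroup.lift (Subgroup.normalClosure {J c}) ψ hN) ?_ ?_
    · intro g _ hg
      obtain ⟨g, rfl⟩ := QuotientGroup.mk_surjective g
      have h3 : ψ g = 1 := hg
      rcases psi_kerM hV hσ hM _ h1 h2 h3 with h4 | h4
      · rw [h4]; rfl
      · rw [h4]
        exact (QuotientGroup.eq_one_iff _).2 (Subgroup.subset_normalClosure rfl)
    · have h3 : (⊤ : Subgroup (Gam c ⧸ Subgroup.normalClosure {J c})).map
          (QuotientGroup.lift (Subgroup.normalClosure {J c}) ψ hN) = ψ.range := by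
        apply le_antisymm
        · rintro _ ⟨g, _, rfl⟩
          obtain ⟨g, rfl⟩ := QuotientGroup.mk_surjective g
          exact ⟨g, rfl⟩
        · rintro _ ⟨g, rfl⟩
          exact ⟨QuotientGroup.mk g, trivial, rfl⟩
      rw [h3, hrange]
      exact hgood

end Pool.Agent.J6H72.PG
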