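import Pool.Agent.J6H72.PG.Pl

/-!
Complete rewriting systems for the graph incidence groups of all planar graphs: kernel and range.
-/

set_option autoImplicit false

namespace Pool.Agent.J6H72.PG

open Pool.Agent.Helper2GI Pool.Agent.Helper2GI.RA Pool.Agent.Helper2CR

variable {c : Code} {σ : Equiv.Perm (Dart c)} {cl : ℕ → ℕ}

/-- the subgroup generated by `J` -/
theorem mem_nc {g : Gam c} (h : g ∈ Subgroup.normalClosure {J c}) : g = 1 ∨ g = J c := by
  have hn : (Subgroup.zpowers (J c)).Normal := by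
    refine ⟨fun a ha b => ?_⟩
    obtain ⟨k, rfl⟩ := ha
    have h1 : Commute b (J c ^ k) := (show Commute b (J c) from J_central b).zpow_right k
    change b * J c ^ k * b⁻¹ ∈ _
    rw [h1.eq, mul_inv_cancel_right]
    exact ⟨k, rfl⟩
  have h1 : Subgroup.normalClosure {J c} ≤ Subgroup.zpowers (J c) :=
    Subgroup.normalClosure_le_normal (by
      rintro _ rfl
      exact Subgroup.mem_zpowers _)
  obtain ⟨k, rfl⟩ := h1 h
  change J c ^ k = 1 ∨ J c ^ k = J c
  rcases Int.even_or_odd k with ⟨m, hm⟩ | ⟨m, hm⟩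
  · left
    rw [hm, zpow_add, ← (Commute.refl (J c)).mul_zpow, JJ1, one_zpow]
  · right
    rw [hm, zpow_add, zpow_one, two_mul, zpow_add, ← (Commute.refl (J c)).mul_zpow, JJ1, one_zpow,
      one_mul]

/-- the quotient by `J` -/
abbrev G0 (c : Code) : Type := Gam c ⧸ Subgroup.normalClosure {J c}

theorem mkJ : (QuotientGroup.mk' (Subgroup.normalClosure {J c})) (J c) = 1 :=
  (QuotientGroup.eq_one_iff _).2 (Subgroup.subset_normalClosure rfl)

theorem X_sq (i : Edge c) : (QuotientGroup.mk' (Subgroup.normalClosure {J c})) (x c i) *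
    (QuotientGroup.mk' (Subgroup.normalClosure {J c})) (x c i) = 1 := by
  rw [← map_mul, xx_one, map_one]

theorem vG_cons (i : Edge c) (w : List (Edge c)) :
    vG c ((i :: w).map some) = x c i * vG c (w.map some) := by
  have h : (i :: w).map some = [some i] ++ w.map some := rfl
  rw [h, vG_append]
  congr 1

theorem psi_kerM (hV : Valid c) (hσ : Rotation c σ) (hM : Spheres c σ hσ cl) (d₀ : Dart c)
    {ψ : Gam c →* (RM σ cl d₀).W} (h1 : ψ (J c) = 1)
    (h2 : ∀ e : Dart c, ψ (x c e.1) = mu σ cl d₀ (gp σ cl e)) {g : Gam c} (hg : ψ g = 1) :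
    g = 1 ∨ g = J c := by
  have hσ0 : Rotation (c0 c) σ := ⟨hσ.tl_eq, hσ.cyc⟩
  have hM0 : Spheres (c0 c) σ hσ0 cl := ⟨hM.comp, hM.joined, hM.euler⟩
  have hV0 : Valid (c0 c) := hV
  have hev0 : ∀ v < (c0 c).1, tot (c0 c) cl (cl v) = 0 := by
    intro v _
    unfold tot
    apply Finset.sum_eq_zero
    intro w _
    rw [colour_c0, Nat.cast_zero]
  obtain ⟨Y0, sn, hY⟩ := exists_potsS hV0 hσ0 hM0 hev0
  set q := QuotientGroup.mk' (Subgroup.normalClosure {J c}) with hq
  obtain ⟨φ, f1, f2⟩ := exists_hom (c := c0 c) (1 : G0 c) (fun i => q (x c i)) (one_mul 1)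
    (fun i => X_sq (c := c) i) (fun i => by rw [mul_one, one_mul])
    (fun v i k hi hk => by
      rw [← map_mul, ← map_mul]
      exact congrArg q (xx_comm c hi hk))
    (fun v hv => by
      rw [one_pow]
      have h3 := congrArg q (vert_rel c (v := v) hv)
      rw [map_list_prod, List.map_map, map_pow, hq, mkJ, one_pow] at h3
      exact h3)
  let Y1 : Rg c σ cl → G0 c := fun f => φ (vG (c0 c) ((Y0 f).map some))
  have hY1 : ∀ e : Dart c, Y1 (reg σ cl (σ⁻¹ e)) * q (x c e.1) = Y1 (reg σ cl e) := by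
    intro e
    have h3 := D_val (hY.D e)
    rw [List.map_append, vG_append] at h3
    have h4 := congrArg φ h3
    rw [map_mul, map_mul, map_pow, f1, one_pow, one_mul] at h4
    have h5 : vG (c0 c) (List.map some [e.1]) = x (c0 c) e.1 := by simp [vG, x]
    rw [h5, f2] at h4
    exact h4
  let Y2 : Rg c σ cl → G0 c := fun f => (Y1 (reg σ cl (bd cl d₀ (rcl hσ f))))⁻¹ * Y1 f
  have hY2 : ∀ e : Dart c, Y2 (reg σ cl (σ⁻¹ e)) * q (x c e.1) = Y2 (reg σ cl e) := by
    intro e
    change (Y1 (reg σ cl (bd cl d₀ (rcl hσ (reg σ cl (σ⁻¹ e))))))⁻¹ * Y1 (reg σ cl (σ⁻¹ e)) *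
      q (x c e.1) = (Y1 (reg σ cl (bd cl d₀ (rcl hσ (reg σ cl e)))))⁻¹ * Y1 (reg σ cl e)
    rw [rcl_reg, rcl_reg, tl_inv hσ, mul_assoc, hY1]
  have hB : ∀ f, Bs σ cl d₀ f → Y2 f = 1 := by
    rintro f ⟨d, rfl⟩
    change (Y1 (reg σ cl (bd cl d₀ (rcl hσ (reg σ cl (bd cl d₀ (cl (tl d))))))))⁻¹ *
      Y1 (reg σ cl (bd cl d₀ (cl (tl d)))) = 1
    rw [rcl_reg, cl_bd (cl := cl) d₀ d, inv_mul_cancel]
  obtain ⟨θ, hθ⟩ := exists_act (X := fun i => q (x c i)) (Y := Y2) hσ d₀ (fun i => X_sq i)
    (fun v i k hi hk => by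
      rw [← map_mul, ← map_mul]
      exact congrArg q (xx_comm c hi hk)) hY2 hB
  have key : ∀ (w : List (Edge c)) (h : G0 c),
      θ (ψ (vG c (w.map some))) (h, false) = (q (vG c (w.map some)) * h, false) := by
    intro w
    induction w with
    | nil =>
      intro h
      rw [List.map_nil, vG_nil, map_one, map_one, map_one, one_mul]
      rfl
    | cons i w ih =>
      intro h
      rw [vG_cons, map_mul, map_mul, map_mul, Equiv.Perm.mul_apply, ih]
      have h3 := h2 (i, false)
      change ψ (x c i) = _ at h3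
      rw [h3, hθ (i, false), mul_assoc]
  obtain ⟨k, w, rfl⟩ := word_form g
  rw [map_mul, map_pow, h1, one_pow, one_mul] at hg
  have h3 := key w 1
  rw [hg, map_one, mul_one] at h3
  have h4 : q (vG c (w.map some)) = 1 := (congrArg Prod.fst h3).symm
  have h5 := mem_nc ((QuotientGroup.eq_one_iff _).1 h4)
  rcases JJp (c := c) k with h6 | h6 <;> rcases h5 with h7 | h7 <;> rw [h6, h7]
  · exact Or.inl (one_mul 1)
  · exact Or.inr (one_mul _)
  · exact Or.inr (mul_one _)
  · exact Or.inl JJ1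

theorem psi_rangeM (hV : Valid c) (hσ : Rotation c σ) (hM : Spheres c σ hσ cl) (d₀ : Dart c)
    {ψ : Gam c →* (RM σ cl d₀).W} (h1 : ψ (J c) = 1)
    (h2 : ∀ e : Dart c, ψ (x c e.1) = mu σ cl d₀ (gp σ cl e)) :
    ψ.range = (parE (RM σ cl d₀)).ker := by
  classical
  have hgp : ∀ e : Dart c, mu σ cl d₀ (gp σ cl e) ∈ ψ.range := fun e => ⟨x c e.1, h2 e⟩
  apply le_antisymm
  · rintro _ ⟨g, rfl⟩
    obtain ⟨k, w, rfl⟩ := word_form g
    rw [map_mul, map_pow, h1, one_pow, one_mul]
    induction w with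
    | nil => rw [List.map_nil, vG_nil, map_one]; exact Subgroup.one_mem _
    | cons i w ih =>
      rw [vG_cons, map_mul]
      refine Subgroup.mul_mem _ ?_ ih
      have h3 := h2 (i, false)
      change ψ (x c i) = _ at h3
      rw [h3, mu_gp, MonoidHom.mem_ker, map_mul]
      unfold parE
      rw [RA.hom_g, RA.hom_g]
      rfl
  · let T : Rg c σ cl → Rg c σ cl → Prop := fun f f' =>
      (RM σ cl d₀).g (mk d₀ f) * (RM σ cl d₀).g (mk d₀ f') ∈ ψ.range
    have Teq : ∀ f f', mk d₀ f = mk d₀ f' → T f f' := fun f f' h => by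
      show _ * _ ∈ _
      rw [h, gg]
      exact Subgroup.one_mem _
    have Trefl : ∀ f, T f f := fun f => Teq f f rfl
    have Tsymm : ∀ {f f'}, T f f' → T f' f := by
      intro f f' h
      have h3 := Subgroup.inv_mem _ h
      rwa [mul_inv_rev, g_inv, g_inv] at h3
    have Ttrans : ∀ {f f' f''}, T f f' → T f' f'' → T f f'' := by
      intro f f' f'' h h'
      have h3 := Subgroup.mul_mem _ h h'
      have e : (RM σ cl d₀).g (mk d₀ f) * (RM σ cl d₀).g (mk d₀ f') *
          ((RM σ cl d₀).g (mk d₀ f') * (RM σ cl d₀).g (mk d₀ f'')) =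
          (RM σ cl d₀).g (mk d₀ f) * ((RM σ cl d₀).g (mk d₀ f') * (RM σ cl d₀).g (mk d₀ f')) *
            (RM σ cl d₀).g (mk d₀ f'') := by group
      rw [e, gg, mul_one] at h3
      exact h3
    have Tstep : ∀ e : Dart c, T (reg σ cl (σ⁻¹ e)) (reg σ cl e) := fun e => by
      have h3 := hgp e
      rw [mu_gp] at h3
      exact h3
    have Tcyc : ∀ d e : Dart c, tl d = tl e → T (reg σ cl d) (reg σ cl e) := by
      intro d e hde
      obtain ⟨n, hlt, hn⟩ := exists_iter hσ hde.symm
      rw [← hn]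
      clear hn hde hlt
      induction n with
      | zero => exact Trefl _
      | succ n ih =>
        refine Ttrans ih ?_
        rw [Function.iterate_succ_apply']
        have h3 := Tstep (σ (σ^[n] d))
        rwa [pinv2] at h3
    have Top : ∀ e : Dart c, T (reg σ cl e) (reg σ cl (op e)) := by
      intro e
      rw [reg_op (σ := σ) (cl := cl) (inn_all hσ hM e)]
      exact Tsymm (Tstep e)
    have Tall : ∀ d e : Dart c, cl (tl e) = cl (tl d) → T (reg σ cl d) (reg σ cl e) := by
      intro d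
      have hj := hM.joined (tl d) (tl_lt hV d)
      have key : ∀ v, Relation.ReflTransGen (fun a b => Adj c a b ∧ cl a = cl (tl d) ∧
          cl b = cl (tl d)) (tl d) v → ∀ e : Dart c, tl e = v → T (reg σ cl d) (reg σ cl e) := by
        intro v hv
        induction hv with
        | refl => intro e he; exact Tcyc d e he.symm
        | @tail a b _ hab ih =>
          intro e he
          obtain ⟨⟨hne, i, hia, hib⟩, _⟩ := hab
          obtain ⟨ea, h3, h4⟩ := inc_cases hia
          obtain ⟨eb, h5, h6⟩ := inc_cases hib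
          have h7 : eb = op ea := by
            rcases same_edge (h5.trans h3.symm) with h8 | h8
            · exfalso
              apply hne
              rw [← h4, ← h6, h8]
            · exact h8
          have h8 := Ttrans (ih ea h4) (Top ea)
          rw [← h7] at h8
          exact Ttrans h8 (Tcyc eb e (h6.trans he.symm))
      intro e hed
      exact key _ (hj (tl d) (tl e) (tl_lt hV d) (tl_lt hV e) rfl hed) e rfl
    have Tfin : ∀ f f', T f f' := by
      intro f f'
      obtain ⟨d, rfl⟩ := reg_surj f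
      obtain ⟨e, rfl⟩ := reg_surj f'
      have a1 := Tall d (bd cl d₀ (cl (tl d))) (cl_bd d₀ d)
      have a2 := Tall e (bd cl d₀ (cl (tl e))) (cl_bd d₀ e)
      have a3 : T (reg σ cl (bd cl d₀ (cl (tl d)))) (reg σ cl (bd cl d₀ (cl (tl e)))) :=
        Teq _ _ (Quotient.sound (Or.inr ⟨⟨d, rfl⟩, ⟨e, rfl⟩⟩))
      exact Ttrans a1 (Ttrans a3 (Tsymm a2))
    have Tfin' : ∀ a b : MR σ cl d₀, (RM σ cl d₀).g a * (RM σ cl d₀).g b ∈ ψ.range := by
      intro a b
      obtain ⟨f, rfl⟩ := mk_surj d₀ a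
      obtain ⟨f', rfl⟩ := mk_surj d₀ b
      exact Tfin f f'
    intro g hg
    obtain ⟨m, hred, rfl⟩ := exists_red g
    clear hred
    rw [MonoidHom.mem_ker, parE_ev] at hg
    have h3 : (m.length : ZMod 2) = 0 := hg
    rw [ZMod.natCast_eq_zero_iff] at h3
    obtain ⟨n, hn⟩ := h3
    clear hg
    induction n generalizing m with
    | zero =>
      have : m = [] := List.eq_nil_of_length_eq_zero (by omega)
      rw [this]
      exact Subgroup.one_mem _
    | succ n ih =>
      match m, hn with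
      | [], hn => simp at hn
      | [a], hn => simp only [List.length_singleton] at hn; omega
      | a :: b :: m, hn =>
        rw [ev_cons, ev_cons, ← mul_assoc]
        refine Subgroup.mul_mem _ (Tfin' a b) (ih m ?_)
        simp only [List.length_cons] at hn
        omega

instance (d₀ : Dart c) : Finite (MR σ cl d₀) :=
  Finite.of_surjective (fun d => mk d₀ (reg σ cl d)) (fun a => by
    obtain ⟨f, rfl⟩ := mk_surj d₀ a
    obtain ⟨d, rfl⟩ := reg_surj f
    exact ⟨d, rfl⟩)

end Pool.Agent.J6H72.PG
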