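import Pool.Agent.Helper2CR.Pl

/-!
Complete rewriting systems for the graph incidence groups of all planar graphs, connected or not.

The regions of the components are merged: one region of each component is chosen, and the chosen
regions are identified. The group of the graph, modulo `J`, is the even subgroup of the right-angled
Coxeter group of the merged regions.
-/

set_option autoImplicit false

namespace Pool.Agent.J6H72.PG

open Pool.Agent.Helper2GI Pool.Agent.Helper2GI.RA Pool.Agent.Helper2CR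

variable {c : Code} {σ : Equiv.Perm (Dart c)} {cl : ℕ → ℕ}

open Classical in
/-- a dart in the cluster `U`, if there is one -/
noncomputable def bd (cl : ℕ → ℕ) (d₀ : Dart c) (U : ℕ) : Dart c :=
  if h : ∃ d : Dart c, cl (tl d) = U then h.choose else d₀

theorem cl_bd (d₀ d : Dart c) : cl (tl (bd cl d₀ (cl (tl d)))) = cl (tl d) := by
  have h : ∃ e : Dart c, cl (tl e) = cl (tl d) := ⟨d, rfl⟩
  unfold bd
  rw [dif_pos h]
  exact h.choose_spec

variable (σ cl) in
/-- the base regions -/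
def Bs (d₀ : Dart c) (f : Rg c σ cl) : Prop := ∃ d : Dart c, f = reg σ cl (bd cl d₀ (cl (tl d)))

variable (σ cl) in
/-- the identification of the base regions -/
def sd (d₀ : Dart c) : Setoid (Rg c σ cl) where
  r f g := f = g ∨ (Bs σ cl d₀ f ∧ Bs σ cl d₀ g)
  iseqv := by
    refine ⟨fun f => Or.inl rfl, fun h => ?_, fun h h' => ?_⟩
    · rcases h with h | h
      · exact Or.inl h.symm
      · exact Or.inr ⟨h.2, h.1⟩
    · rcases h with rfl | h
      · exact h'
      · rcases h' with rfl | h'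
        · exact Or.inr h
        · exact Or.inr ⟨h.1, h'.2⟩

variable (σ cl) in
/-- the merged regions -/
def MR (d₀ : Dart c) : Type := Quotient (sd σ cl d₀)

/-- the merged region of a region -/
def mk (d₀ : Dart c) (f : Rg c σ cl) : MR σ cl d₀ := Quotient.mk _ f

theorem mk_surj (d₀ : Dart c) (a : MR σ cl d₀) : ∃ f, mk d₀ f = a := Quotient.exists_rep a

variable (σ cl) in
/-- the right-angled Coxeter graph of the merged regions -/
def RM (d₀ : Dart c) : RA (MR σ cl d₀) where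
  adj a b := a ≠ b ∧ ∃ f g : Rg c σ cl, mk d₀ f = a ∧ mk d₀ g = b ∧ (RR c σ cl).adj f g
  symm := by
    rintro a b ⟨h, f, g, h1, h2, h3⟩
    exact ⟨h.symm, g, f, h2, h1, (RR c σ cl).symm h3⟩
  irr := fun a h => h.1 rfl

variable (σ cl) in
/-- merging -/
noncomputable def mu (d₀ : Dart c) : (RR c σ cl).W →* (RM σ cl d₀).W :=
  RA.hom (fun f => (RM σ cl d₀).g (mk d₀ f)) (fun f => gg _) (fun f g h => by
    by_cases hh : mk d₀ f = mk d₀ g
    · rw [hh]
    · exact gcomm ⟨hh, f, g, rfl, rfl, h⟩)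

theorem mu_g (d₀ : Dart c) (f : Rg c σ cl) :
    mu σ cl d₀ ((RR c σ cl).g f) = (RM σ cl d₀).g (mk d₀ f) := by
  unfold mu
  rw [RA.hom_g]

theorem mu_gp (d₀ : Dart c) (e : Dart c) : mu σ cl d₀ (gp σ cl e) =
    (RM σ cl d₀).g (mk d₀ (reg σ cl (σ⁻¹ e))) * (RM σ cl d₀).g (mk d₀ (reg σ cl e)) := by
  unfold gp
  rw [map_mul, mu_g, mu_g]

theorem inn_all (hσ : Rotation c σ) (hM : Spheres c σ hσ cl) (d : Dart c) : inn cl d :=
  hM.comp _ _ d.1 (inc_tl d) (inc_tl (op d))

theorem gpe (hσ : Rotation c σ) (hM : Spheres c σ hσ cl) (e : Dart c) :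
    gp σ cl (e.1, false) = gp σ cl e := by
  obtain ⟨i, b⟩ := e
  cases b with
  | false => rfl
  | true =>
    have h := gp_op (σ := σ) hσ (inn_all hσ hM ((i, false) : Dart c))
    exact h.symm

theorem exists_psiM (hV : Valid c) (hσ : Rotation c σ) (hM : Spheres c σ hσ cl) (d₀ : Dart c) :
    ∃ ψ : Gam c →* (RM σ cl d₀).W, ψ (J c) = 1 ∧
      ∀ e : Dart c, ψ (x c e.1) = mu σ cl d₀ (gp σ cl e) := by
  obtain ⟨ψ, h1, h2⟩ := exists_hom (c := c) (1 : (RM σ cl d₀).W)
    (fun i => mu σ cl d₀ (gp σ cl (i, false))) (one_mul 1)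
    (fun i => by rw [← map_mul, gp_sq hσ, map_one])
    (fun i => by rw [mul_one, one_mul])
    (by
      intro v i k hi hk
      obtain ⟨e, h1, h2⟩ := inc_cases hi
      obtain ⟨d, g1, g2⟩ := inc_cases hk
      have a1 := gpe hσ hM e
      have a2 := gpe hσ hM d
      rw [h1] at a1
      rw [g1] at a2
      rw [a1, a2, ← map_mul, ← map_mul, gp_comm hσ (h2.trans g2.symm)])
    (by
      intro v _
      rw [one_pow]
      have h3 := el_prod2 (cl := cl) hσ hV v
      have h4 := congrArg (mu σ cl d₀) h3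
      rw [map_list_prod, List.map_map, map_one] at h4
      rw [← h4]
      congr 1
      apply List.map_congr_left
      intro i hi
      obtain ⟨e, he1, he2, he3⟩ := el_at (cl := cl) hσ (mem_star.1 hi)
      have a1 := gpe hσ hM e
      rw [he1] at a1
      change mu σ cl d₀ (gp σ cl (i, false)) = mu σ cl d₀ (el σ cl (cl v) i)
      rw [he3, a1])
  refine ⟨ψ, h1, fun e => ?_⟩
  rw [h2, gpe hσ hM e]

/-! ### the action -/

/-- the permutation given by an element of the group -/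
def pp {N : Type} [Group N] (y : N) : Equiv.Perm (N × Bool) where
  toFun p := if p.2 then (y⁻¹ * p.1, false) else (y * p.1, true)
  invFun p := if p.2 then (y⁻¹ * p.1, false) else (y * p.1, true)
  left_inv := by rintro ⟨h, _ | _⟩ <;> simp
  right_inv := by rintro ⟨h, _ | _⟩ <;> simp

theorem pp_sq {N : Type} [Group N] (y : N) : pp y * pp y = 1 := by
  ext ⟨h, _ | _⟩ <;> simp [pp]

theorem pp_mul {N : Type} [Group N] (y z h : N) : (pp y * pp z) (h, false) = (y⁻¹ * z * h, false) := by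
  simp [pp, mul_assoc]

theorem pp_comm {N : Type} [Group N] {y z : N} (h : (y⁻¹ * z) * (y⁻¹ * z) = 1) :
    pp y * pp z = pp z * pp y := by
  have h1 : y⁻¹ * z = z⁻¹ * y := by
    have := eq_inv_of_mul_eq_one_left h
    rw [mul_inv_rev, inv_inv] at this
    exact this
  have h2 : y * z⁻¹ = z * y⁻¹ := by
    have h3 : z = y * (z⁻¹ * y) := by rw [← h1]; group
    calc y * z⁻¹ = y * (z⁻¹ * y) * y⁻¹ := by group
      _ = z * y⁻¹ := by rw [← h3]
  ext ⟨k, _ | _⟩
  · simp [pp, ← mul_assoc, h1]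
  · simp [pp]
  · simp [pp, ← mul_assoc, h2]
  · simp [pp]

section
variable {N : Type} [Group N] {X : Edge c → N} {Y : Rg c σ cl → N}

theorem around (hσ : Rotation c σ) (hX : ∀ i, X i * X i = 1)
    (hc : ∀ v i k, Inc c v i → Inc c v k → X i * X k = X k * X i)
    (hY : ∀ e : Dart c, Y (reg σ cl (σ⁻¹ e)) * X e.1 = Y (reg σ cl e)) (d : Dart c) (n : ℕ) :
    tl (σ^[n] d) = tl d ∧
    ((Y (reg σ cl d))⁻¹ * Y (reg σ cl (σ^[n] d))) * ((Y (reg σ cl d))⁻¹ * Y (reg σ cl (σ^[n] d))) = 1 ∧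
    ∀ i, Inc c (tl d) i → ((Y (reg σ cl d))⁻¹ * Y (reg σ cl (σ^[n] d))) * X i =
      X i * ((Y (reg σ cl d))⁻¹ * Y (reg σ cl (σ^[n] d))) := by
  induction n with
  | zero =>
    refine ⟨rfl, ?_, fun i _ => ?_⟩
    · simp
    · simp
  | succ n ih =>
    obtain ⟨h1, h2, h3⟩ := ih
    rw [Function.iterate_succ_apply']
    set e := σ^[n] d with he
    have h4 : tl (σ e) = tl d := (hσ.tl_eq e).trans h1
    have h5 := hY (σ e)
    rw [pinv2] at h5
    have h6 : Inc c (tl d) (σ e).1 := by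
      rw [← h4]
      exact inc_tl _
    have h7 : (Y (reg σ cl d))⁻¹ * Y (reg σ cl (σ e)) =
        ((Y (reg σ cl d))⁻¹ * Y (reg σ cl e)) * X (σ e).1 := by
      rw [← h5, mul_assoc]
    set z := (Y (reg σ cl d))⁻¹ * Y (reg σ cl e) with hz
    rw [h7]
    refine ⟨h4, ?_, fun i hi => ?_⟩
    · calc z * X (σ e).1 * (z * X (σ e).1) = z * (X (σ e).1 * z) * X (σ e).1 := by group
        _ = z * (z * X (σ e).1) * X (σ e).1 := by rw [h3 _ h6]
        _ = (z * z) * (X (σ e).1 * X (σ e).1) := by group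
        _ = 1 := by rw [h2, hX, one_mul]
    · calc z * X (σ e).1 * X i = z * (X (σ e).1 * X i) := by group
        _ = z * X i * X (σ e).1 := by rw [hc _ _ _ h6 hi]; group
        _ = X i * (z * X (σ e).1) := by rw [h3 i hi]; group

theorem exists_act (hσ : Rotation c σ) (d₀ : Dart c) (hX : ∀ i, X i * X i = 1)
    (hc : ∀ v i k, Inc c v i → Inc c v k → X i * X k = X k * X i)
    (hY : ∀ e : Dart c, Y (reg σ cl (σ⁻¹ e)) * X e.1 = Y (reg σ cl e))
    (hB : ∀ f, Bs σ cl d₀ f → Y f = 1) :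
    ∃ θ : (RM σ cl d₀).W →* Equiv.Perm (N × Bool), ∀ (e : Dart c) (h : N),
      θ (mu σ cl d₀ (gp σ cl e)) (h, false) = (X e.1 * h, false) := by
  let Y' : MR σ cl d₀ → N := Quotient.lift Y (by
    rintro f g (h | h)
    · rw [h]
    · rw [hB f h.1, hB g h.2])
  have hY' : ∀ f, Y' (mk d₀ f) = Y f := fun f => rfl
  refine ⟨RA.hom (fun a => pp (Y' a)) (fun a => pp_sq _) (fun a b hab => ?_), fun e h => ?_⟩
  · obtain ⟨_, f, g, rfl, rfl, _, d, d', h1, h2, h3⟩ := hab
    rw [hY', hY']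
    apply pp_comm
    obtain ⟨n, _, hn⟩ := exists_iter hσ h1.symm
    have h4 := (around (cl := cl) hσ hX hc hY d n).2.1
    rw [hn, h2, h3] at h4
    exact h4
  · rw [mu_gp, map_mul, RA.hom_g, RA.hom_g, hY', hY', pp_mul, ← hY e]
    congr 1
    group

end

end Pool.Agent.J6H72.PG
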